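import Pool.Agent.helper69.DH.SpecR2

/-!
# d2:rBMP (MP_5823cb_al)

The bump `rbp`: values, first order expansion.
-/

set_option autoImplicit false

open Filter Topology MeasureTheory
open scoped commutatorElement

namespace Pool.Agent.helper90.DH

open Pool.Agent.helper64.D2

namespace RBMP

theorem rg_rem (a d : ℝ) : 0 ≤ rg (a + d) - rg a - 2 * max 0 a * d ∧
    rg (a + d) - rg a - 2 * max 0 a * d ≤ d ^ 2 := by
  unfold rg
  rcases le_total 0 a with ha | ha <;> rcases le_total 0 (a + d) with hb | hb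
  · rw [max_eq_right ha, max_eq_right hb]
    constructor <;> nlinarith [sq_nonneg d]
  · rw [max_eq_right ha, max_eq_left hb]
    constructor
    · nlinarith
    · nlinarith [sq_nonneg (a + d)]
  · rw [max_eq_left ha, max_eq_right hb]
    constructor
    · nlinarith [sq_nonneg (a + d)]
    · nlinarith
  · rw [max_eq_left ha, max_eq_left hb]
    constructor
    · simp
    · nlinarith [sq_nonneg d]

theorem rg_nonneg (a : ℝ) : 0 ≤ rg a := by
  unfold rg
  positivity

theorem rg_zero {a : ℝ} (h : a ≤ 0) : rg a = 0 := by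
  unfold rg
  rw [max_eq_left h]
  norm_num

theorem one_sub_nonpos {w : ℝ} (h : 2 ≤ |w|) : 1 - (w / 2) ^ 2 ≤ 0 := by
  have h1 : (2 : ℝ) ^ 2 ≤ |w| ^ 2 := pow_le_pow_left₀ (by norm_num) h 2
  rw [sq_abs] at h1
  nlinarith

/-- The slope bound. -/
theorem lam_le (w : ℝ) : |-2 * max 0 (1 - (w / 2) ^ 2) * w| ≤ 8 / 5 := by
  rcases le_total 2 |w| with h | h
  · rw [max_eq_left (one_sub_nonpos h)]
    norm_num
  · have h0 := abs_nonneg w
    have h2 : 0 ≤ 1 - (w / 2) ^ 2 := by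
      have : |w| ^ 2 ≤ (2 : ℝ) ^ 2 := pow_le_pow_left₀ h0 h 2
      rw [sq_abs] at this
      nlinarith
    rw [max_eq_right h2, abs_mul, abs_mul, abs_of_nonneg h2]
    have h3 : |(-2 : ℝ)| = 2 := by norm_num
    rw [h3, show (w / 2) ^ 2 = |w| ^ 2 / 4 by rw [sq_abs]; ring]
    nlinarith [mul_nonneg (sq_nonneg (|w| / 2 - 29 / 50)) (show (0 : ℝ) ≤ |w| / 2 + 58 / 50 by linarith)]

/-- The expansion. -/
theorem expand (w h : ℝ) (hh : |h| ≤ 1 / 100) :
    |2 * rg (1 - ((w + h) / 2) ^ 2) - 2 * rg (1 - (w / 2) ^ 2)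
      - (-2 * max 0 (1 - (w / 2) ^ 2) * w) * h| ≤ 4 * h ^ 2 := by
  have hh0 := abs_nonneg h
  rcases le_total |w| (2 + |h|) with hw | hw
  · have hd : |-(w * h) / 2 - h ^ 2 / 4| ≤ |h| * (1 + |h|) := by
      have e1 : |-(w * h) / 2 - h ^ 2 / 4| ≤ |w| * |h| / 2 + |h| ^ 2 / 4 := by
        have := abs_sub (-(w * h) / 2) (h ^ 2 / 4)
        rw [abs_div, abs_neg, abs_mul, abs_div, abs_of_nonneg (sq_nonneg h), ← sq_abs h] at this
        norm_num at this
        simpa using this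
      nlinarith [mul_le_mul_of_nonneg_right hw hh0]
    have hd2 : (-(w * h) / 2 - h ^ 2 / 4) ^ 2 ≤ 3 / 2 * h ^ 2 := by
      have e1 := pow_le_pow_left₀ (abs_nonneg _) hd 2
      rw [sq_abs] at e1
      have e2 : (|h| * (1 + |h|)) ^ 2 ≤ 3 / 2 * |h| ^ 2 := by
        rw [mul_pow]
        have : (1 + |h|) ^ 2 ≤ 3 / 2 := by nlinarith
        nlinarith [sq_nonneg |h|]
      rw [sq_abs h] at e2
      linarith
    obtain ⟨r1, r2⟩ := rg_rem (1 - (w / 2) ^ 2) (-(w * h) / 2 - h ^ 2 / 4)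
    have hp : 1 - ((w + h) / 2) ^ 2 = 1 - (w / 2) ^ 2 + (-(w * h) / 2 - h ^ 2 / 4) := by ring
    rw [hp]
    have hm0 : 0 ≤ max 0 (1 - (w / 2) ^ 2) := le_max_left _ _
    have hm1 : max 0 (1 - (w / 2) ^ 2) ≤ 1 := max_le (by norm_num) (by nlinarith [sq_nonneg (w / 2)])
    generalize rg (1 - (w / 2) ^ 2 + (-(w * h) / 2 - h ^ 2 / 4)) = A at *
    generalize rg (1 - (w / 2) ^ 2) = B at *
    generalize max 0 (1 - (w / 2) ^ 2) = M at *
    have hmh : M * h ^ 2 ≤ h ^ 2 := by nlinarith [sq_nonneg h]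
    have hmh0 : 0 ≤ M * h ^ 2 := by positivity
    rw [abs_le]
    constructor
    · nlinarith
    · nlinarith
  · have h1 : 2 ≤ |w| := by linarith
    have h2 : 2 ≤ |w + h| := by
      have := abs_sub_abs_le_abs_sub w (-h)
      rw [abs_neg, sub_neg_eq_add] at this
      linarith
    rw [rg_zero (one_sub_nonpos h1), rg_zero (one_sub_nonpos h2), max_eq_left (one_sub_nonpos h1)]
    simp
    positivity

end RBMP

open RBMP in
theorem rBMP : rBMP_stmt := by
  intro v
  refine ⟨?_, ?_, ?_, ?_⟩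
  · unfold rbp
    have := rg_nonneg (1 - ((v - 1 / 2) / 2) ^ 2)
    linarith
  · intro h
    have h1 : ((v - 1 / 2) / 2) ^ 2 ≤ 7 / 100 := by
      have h0 : |v - 1 / 2| ≤ 51 / 100 := le_trans h (by norm_num)
      have := pow_le_pow_left₀ (abs_nonneg _) h0 2
      rw [sq_abs] at this
      nlinarith
    unfold rbp rg
    rw [max_eq_right (by linarith)]
    nlinarith
  · intro h
    unfold rbp
    rw [rg_zero (one_sub_nonpos h)]
    norm_num
  · refine ⟨-2 * max 0 (1 - ((v - 1 / 2) / 2) ^ 2) * (v - 1 / 2), lam_le _, ?_, ?_⟩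
    · intro h
      rw [max_eq_left (one_sub_nonpos h)]
      norm_num
    · intro h hh
      have e : rbp (v + h) = 2 * rg (1 - ((v - 1 / 2 + h) / 2) ^ 2) := by
        unfold rbp
        rw [show v + h - 1 / 2 = v - 1 / 2 + h by ring]
      have h1 := expand (v - 1 / 2) h hh
      have h1' : |rbp (v + h) - rbp v - -2 * max 0 (1 - ((v - 1 / 2) / 2) ^ 2) * (v - 1 / 2) * h| ≤ 4 * h ^ 2 := by
        rw [e]
        exact h1
      refine ⟨h1', ?_⟩
      have h2 := lam_le (v - 1 / 2)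
      generalize -2 * max 0 (1 - ((v - 1 / 2) / 2) ^ 2) * (v - 1 / 2) = L at *
      have h3 : |rbp (v + h) - rbp v| ≤ |rbp (v + h) - rbp v - L * h| + |L * h| := by
        have := abs_add_le (rbp (v + h) - rbp v - L * h) (L * h)
        rw [sub_add_cancel] at this
        exact this
      rw [abs_mul] at h3
      have h4 : 4 * h ^ 2 ≤ 4 / 100 * |h| := by
        rw [← sq_abs h]
        nlinarith [abs_nonneg h]
      nlinarith [abs_nonneg h]

end Pool.Agent.helper90.DH
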